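import Pool.Agent.N224.Ivy.Main

/-!
# The number of invariant spanning trees is not bounded

For every `N₀` there is a post-critically finite quadratic polynomial with more than `N₀` invariant
isotopy classes of spanning trees. The parameters are the centres of the real period doubling
cascade; for a centre of period `2 ^ k` there is one invariant class for each level `j = 0, …, k`,
represented by a tree which is a union of `2 ^ j` arcs that meet only at infinity.
-/

set_option autoImplicit false

open Topology Set

namespace Pool.Agent.Results.MP_a0c272_an.UnboundedNumber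

open Pool.Agent.N224.Ivy

variable {S : Type*} [TopologicalSpace S]

/-- The isotopy classes, relative to `P`, of the spanning trees for `P`. -/
def TreeClass (P : Set S) : Type _ :=
  Quot fun T T' : {T : Set S // IsSpanningTree P T} => Isotopic P T.1 T'.1

/-- The isotopy class of a spanning tree. -/
def treeClass {P T : Set S} (hT : IsSpanningTree P T) : TreeClass P := Quot.mk _ ⟨T, hT⟩

/-- The spanning tree `T` for `P` is invariant for the map `g`. -/
def IsInvariantTree (P : Set S) (g : S → S) (T : Set S) : Prop :=
  g '' T ⊆ T ∧ g '' vertexSet P T ⊆ vertexSet P T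

/-- The class `A` is invariant for `f`: it contains a spanning tree `T` which is invariant for a map
`g = f ∘ h₁`, where `h` is an isotopy of the sphere relative to `P` from the identity to `h₁`. Such a
`g` is homotopic to `f` relative to `P` through the maps `f ∘ h t`. -/
def IsInvariantClass (P : Set S) (f : S → S) (A : TreeClass P) : Prop :=
  ∃ (T : Set S) (hT : IsSpanningTree P T) (h : unitInterval → S → S),
    A = treeClass hT ∧ IsIsotopy P h ∧ IsInvariantTree P (f ∘ h 1) T

/-- The number `N(f)` of the invariant isotopy classes of `f(z) = z ^ 2 + c`. -/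
noncomputable def numInvariant (c : ℂ) : ℕ∞ :=
  {A : TreeClass (postSet c) | IsInvariantClass (postSet c) (quad c) A}.encard

/-- For every `N₀` there is a post-critically finite polynomial `z ^ 2 + c` with more than `N₀`
invariant isotopy classes of spanning trees. -/
theorem _root_.Pool.Agent.Results.MP_a0c272_an.UnboundedNumber.result :
    ∀ N₀ : ℕ, ∃ c : ℂ, (postSet c).Finite ∧ (N₀ : ℕ∞) < numInvariant c := by
  intro n
  obtain ⟨c, hfin, h⟩ := main n
  refine ⟨c, hfin, ?_⟩
  have h' : ∀ j : Fin (n + 1), ∃ (T : Set (OnePoint ℂ))
      (H : unitInterval → OnePoint ℂ → OnePoint ℂ), IsSpanningTree (postSet c) T ∧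
      vertexSet (postSet c) T = postSet c ∧
      numComponents (T \ {OnePoint.infty}) = (2 ^ (j : ℕ) : ℕ) ∧
      IsIsotopy (postSet c) H ∧ quad c '' (H 1 '' T) ⊆ T := fun j => h j (Nat.lt_succ_iff.1 j.2)
  choose T H hT hV hn hH hm using h'
  have hinf : OnePoint.infty ∈ postSet c := mem_insert _ _
  have hpost : ∀ x ∈ postSet c, quad c x ∈ postSet c := by
    rintro x (rfl | ⟨m, rfl⟩)
    · exact mem_insert _ _
    · refine mem_insert_of_mem _ ⟨m + 1, ?_⟩
      beta_reduce
      rw [Function.iterate_succ_apply']
  refine lt_encard (φ := fun j => treeClass (hT j)) ?_ ?_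
  · intro j j' he
    let N : TreeClass (postSet c) → ℕ∞ :=
      Quot.lift (fun T => numComponents (T.1 \ {OnePoint.infty}))
        fun T T' hTT' => hTT'.numComponents_eq hinf
    have h1 : N (treeClass (hT j)) = N (treeClass (hT j')) := congrArg N he
    have h2 : numComponents (T j \ {OnePoint.infty}) = numComponents (T j' \ {OnePoint.infty}) := h1
    rw [hn, hn] at h2
    have h3 : 2 ^ (j : ℕ) = 2 ^ (j' : ℕ) := by exact_mod_cast h2
    exact Fin.ext (Nat.pow_right_injective le_rfl h3)
  · intro j
    refine ⟨T j, hT j, H j, rfl, hH j, ?_, ?_⟩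
    · rw [image_comp]
      exact hm j
    · rw [hV]
      rintro _ ⟨x, hx, rfl⟩
      rw [Function.comp_apply, (hH j).fix 1 x hx]
      exact hpost x hx

end Pool.Agent.Results.MP_a0c272_an.UnboundedNumber
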